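import Pool.Agent.H95.CG.Targets
import Pool.Agent.H16.HK.GS

/-!
# (MI) the minimum of a positive definite matrix of determinant one
-/

set_option autoImplicit false

open Set Filter

namespace Pool.Agent.H34.CG

open Pool.Agent.H95.CG Pool.Agent.H25.HK

lemma qz_pos {ι : Type} [Fintype ι] {S : Matrix ι ι ℝ} (hS : S.PosDef) {m : ι → ℤ}
    (hm : m ≠ 0) : 0 < qz S m := by
  obtain ⟨c, hc, h⟩ := Pool.Agent.H16.HK.qf_lower hS
  have h1 := h (fun i => (m i : ℝ))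
  have h2 : 0 < ∑ i, (m i : ℝ) ^ 2 := by
    obtain ⟨i, hi⟩ := Function.ne_iff.1 hm
    have hi' : (m i : ℝ) ≠ 0 := by exact_mod_cast hi
    exact lt_of_lt_of_le (by positivity) (Finset.single_le_sum
      (f := fun i => (m i : ℝ) ^ 2) (fun _ _ => sq_nonneg _) (Finset.mem_univ i))
  exact lt_of_lt_of_le (mul_pos hc h2) h1

lemma qz_zero {ι : Type} [Fintype ι] (S : Matrix ι ι ℝ) : qz S 0 = 0 := by
  simp [qz, qf]

/-- existence of the minimum -/
lemma exists_min (hPC : T_PC) {ι : Type} [Fintype ι] [DecidableEq ι] [Nonempty ι]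
    {S : Matrix ι ι ℝ} (hS : S.PosDef) : ∃ m : ι → ℤ, m ≠ 0 ∧ LB S (qz S m) := by
  obtain ⟨i0⟩ := ‹Nonempty ι›
  let e : ι → ℤ := Pi.single i0 1
  have he : e ≠ 0 := by
    intro h
    have := congrFun h i0
    simp [e] at this
  have hfin : {m : ι → ℤ | qz S m < qz S e + 1}.Finite := (hPC ι S hS).1 _
  have hfin' : {m : ι → ℤ | m ≠ 0 ∧ qz S m < qz S e + 1}.Finite :=
    hfin.subset (fun m hm => hm.2)
  obtain ⟨m, hm, hmin⟩ := Set.exists_min_image _ (fun m => qz S m) hfin' ⟨e, he, by linarith⟩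
  refine ⟨m, hm.1, qz_pos hS hm.1, ?_⟩
  intro m' hm'
  by_cases h : qz S m' < qz S e + 1
  · exact hmin m' ⟨hm', h⟩
  · have h1 := hm.2
    linarith [not_lt.1 h]

theorem pf_mi (hTF : T_TF) (hCO : T_CO) (hPC : T_PC) : T_MI := by
  intro n hn
  obtain ⟨C0, hC0, hC⟩ := hCO n
  refine ⟨(max 1 C0) ^ 2, one_le_pow₀ (le_max_left _ _), ?_⟩
  intro ι _ _ S hcard hS hdet
  have : Nonempty ι := Fintype.card_pos_iff.1 (by omega)
  obtain ⟨m, hm, hLB⟩ := exists_min hPC hS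
  refine ⟨qz S m, hLB, ?_, m, hm, rfl⟩
  set a := qz S m with ha
  have ha0 : 0 < a := hLB.1
  -- the number of vectors below the minimum
  have hcnt : cnt S a = 1 := by
    unfold cnt
    have : Subsingleton {m : ι → ℤ // qz S m < a} := by
      constructor
      rintro ⟨x, hx⟩ ⟨y, hy⟩
      have h0 : ∀ z : ι → ℤ, qz S z < a → z = 0 := by
        intro z hz
        by_contra h
        exact absurd (hLB.2 z h) (not_le.2 hz)
      apply Subtype.ext
      exact (h0 x hx).trans (h0 y hy).symm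
    have : Nonempty {m : ι → ℤ // qz S m < a} := ⟨⟨0, by rw [qz_zero]; exact ha0⟩⟩
    exact Nat.card_of_subsingleton (Classical.arbitrary _)
  have h1 : ts S a⁻¹ ≤ C0 := by
    have h := hC ι S hcard hS a⁻¹ (inv_pos.2 ha0)
    rw [inv_inv, hcnt, Nat.cast_one, mul_one] at h
    exact h
  obtain ⟨hS', hdet', hinv, hT⟩ := hTF ι S hS hdet
  have h2 := (hT a⁻¹ (inv_pos.2 ha0)).2
  rw [inv_inv, hcard] at h2
  -- the theta function is at least one
  have h3 : 1 ≤ ts S⁻¹ a := by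
    obtain ⟨_, _, _, hT'⟩ := hTF ι S⁻¹ hS' hdet'
    have hsum := (hT' a ha0).1
    have h := hsum.le_tsum 0 (fun j _ => (Real.exp_pos _).le)
    rw [qz_zero, mul_zero, mul_zero, Real.exp_zero] at h
    exact h
  have h4 : a⁻¹ ^ (-(n : ℝ) / 2) = a ^ ((n : ℝ) / 2) := by
    rw [Real.inv_rpow ha0.le, ← Real.rpow_neg ha0.le]
    congr 1
    ring
  rw [h4] at h2
  have h5 : a ^ ((n : ℝ) / 2) ≤ C0 := by
    have h6 : 0 < a ^ ((n : ℝ) / 2) := Real.rpow_pos_of_pos ha0 _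
    calc a ^ ((n : ℝ) / 2) = a ^ ((n : ℝ) / 2) * 1 := (mul_one _).symm
      _ ≤ a ^ ((n : ℝ) / 2) * ts S⁻¹ a := mul_le_mul_of_nonneg_left h3 h6.le
      _ = ts S a⁻¹ := h2.symm
      _ ≤ C0 := h1
  have hM : (1 : ℝ) ≤ max 1 C0 := le_max_left _ _
  rcases le_or_gt a 1 with hle | hgt
  · exact hle.trans (one_le_pow₀ hM)
  · have h7 : a ^ ((1 : ℝ) / 2) ≤ a ^ ((n : ℝ) / 2) :=
      Real.rpow_le_rpow_of_exponent_le hgt.le (by
        have : (1 : ℝ) ≤ n := by exact_mod_cast hn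
        linarith)
    have h8 : a ^ ((1 : ℝ) / 2) ≤ max 1 C0 := (h7.trans h5).trans (le_max_right _ _)
    calc a = (a ^ ((1 : ℝ) / 2)) ^ 2 := by
            rw [← Real.sqrt_eq_rpow, Real.sq_sqrt ha0.le]
      _ ≤ (max 1 C0) ^ 2 := pow_le_pow_left₀ (Real.rpow_nonneg ha0.le _) h8 2

end Pool.Agent.H34.CG
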